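import Pool.Agent.K4H41.GS.Desc
import Pool.Agent.TH6.CX.Fin

set_option autoImplicit false

/-! Invertible matrices over the integral group ring of a group whose Gram matrix dominates its part
in a subgroup come from the subgroup, with a sharp constant. -/

namespace Pool.Agent.Results.MP_8f66f0_al.GramSubgroup

open Matrix

section defs

variable {Γ : Type} [Group Γ] {n : ℕ}

/-- the adjoint (conjugate transpose) of a matrix over `ℝΓ`, for the involution `g ↦ g⁻¹` -/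
noncomputable def adjoint (A : Matrix (Fin n) (Fin n) (MonoidAlgebra ℝ Γ)) :
    Matrix (Fin n) (Fin n) (MonoidAlgebra ℝ Γ) :=
  Matrix.of fun i j => MonoidAlgebra.mapDomain (fun g => g⁻¹) (A j i)

/-- a matrix over `ℤΓ` as a matrix over `ℝΓ` -/
noncomputable def realMatrix (A : Matrix (Fin n) (Fin n) (MonoidAlgebra ℤ Γ)) :
    Matrix (Fin n) (Fin n) (MonoidAlgebra ℝ Γ) :=
  A.map (MonoidAlgebra.mapRingHom Γ (Int.castRingHom ℝ))

/-- the Gram matrix `A S A*` for a real matrix `S` -/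
noncomputable def gramMatrix (S : Matrix (Fin n) (Fin n) ℝ)
    (A : Matrix (Fin n) (Fin n) (MonoidAlgebra ℤ Γ)) : Matrix (Fin n) (Fin n) (MonoidAlgebra ℝ Γ) :=
  realMatrix A * S.map (MonoidAlgebra.single 1) * adjoint (realMatrix A)

/-- the standard inner product of row vectors over `ℝΓ`: the sum of the products of the
coefficients -/
noncomputable def innerProduct (x y : Fin n → MonoidAlgebra ℝ Γ) : ℝ :=
  ∑ i, (x i).coeff.sum fun g a => a * (y i).coeff g

open Classical in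
/-- the part of a matrix supported in the subgroup `H` -/
noncomputable def partIn (H : Subgroup Γ) (T : Matrix (Fin n) (Fin n) (MonoidAlgebra ℝ Γ)) :
    Matrix (Fin n) (Fin n) (MonoidAlgebra ℝ Γ) :=
  T.map fun a => MonoidAlgebra.ofCoeff (a.coeff.filter fun g => g ∈ H)

/-- `T ≥ θ T_H` as quadratic forms on finitely supported real row vectors, where `T_H` is the part
of `T` supported in `H` -/
def Dominates (H : Subgroup Γ) (θ : ℝ) (T : Matrix (Fin n) (Fin n) (MonoidAlgebra ℝ Γ)) : Prop :=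
  ∀ x : Fin n → MonoidAlgebra ℝ Γ,
    θ * innerProduct (x ᵥ* partIn H T) x ≤ innerProduct (x ᵥ* T) x

/-- a real symmetric positive definite matrix -/
def PositiveDefinite (S : Matrix (Fin n) (Fin n) ℝ) : Prop :=
  (∀ i j, S i j = S j i) ∧ ∀ x : Fin n → ℝ, x ≠ 0 → 0 < ∑ i, ∑ j, x i * S i j * x j

/-- `A = B diag(g₁, …, gₙ) W` with `B ∈ GLₙ(ℤH)` and `gᵢ ∈ Γ`, for a given `W ∈ GLₙ(ℤ)` -/
def SplitsWith (H : Subgroup Γ) (A : Matrix (Fin n) (Fin n) (MonoidAlgebra ℤ Γ))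
    (W : (Matrix (Fin n) (Fin n) ℤ)ˣ) : Prop :=
  ∃ (B : (Matrix (Fin n) (Fin n) (MonoidAlgebra ℤ H))ˣ) (g : Fin n → Γ),
    A = B.val.map (MonoidAlgebra.mapDomain Subtype.val)
      * Matrix.diagonal (fun i => MonoidAlgebra.single (g i) 1)
      * W.val.map (MonoidAlgebra.single 1)

/-- the square matrix `x` over `ℤΓ`, stabilised by an identity block, is `± g` on one diagonal entry
times a product of commutators of invertible matrices (the form of the frozen statement) -/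
def ZeroInWh (x : Matrix (Fin n) (Fin n) (MonoidAlgebra ℤ Γ)) : Prop :=
  ∃ (m : ℕ) (g : Γ) (ε : ℤˣ)
    (C : (Matrix (Fin n ⊕ Fin (m + 1)) (Fin n ⊕ Fin (m + 1)) (MonoidAlgebra ℤ Γ))ˣ),
    C ∈ commutator (Matrix (Fin n ⊕ Fin (m + 1)) (Fin n ⊕ Fin (m + 1)) (MonoidAlgebra ℤ Γ))ˣ ∧
    Matrix.fromBlocks x 0 0 (1 : Matrix (Fin (m + 1)) (Fin (m + 1)) (MonoidAlgebra ℤ Γ)) =
      Matrix.diagonal (fun i : Fin n ⊕ Fin (m + 1) =>
          if i = Sum.inr (0 : Fin (m + 1)) then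
            (MonoidAlgebra.single g ((ε : ℤ)) : MonoidAlgebra ℤ Γ) else 1) *
        (↑C : Matrix (Fin n ⊕ Fin (m + 1)) (Fin n ⊕ Fin (m + 1)) (MonoidAlgebra ℤ Γ))

end defs

section aux

open TH57.Thr TH6.LF TH6.CX K4H41.GS

variable {Γ : Type} [Group Γ] {n : ℕ}

theorem gram_eq (S : Matrix (Fin n) (Fin n) ℝ) (A : Matrix (Fin n) (Fin n) (MonoidAlgebra ℤ Γ)) :
    gramMatrix S A = K4H41.GS.gram S A := rfl

theorem dom_iff (H : Subgroup Γ) (θ : ℝ) (T : Matrix (Fin n) (Fin n) (MonoidAlgebra ℝ Γ)) :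
    Dominates H θ T ↔ Dom H θ T := by
  unfold Dominates Dom
  refine forall_congr' fun x => ?_
  rw [ip_eq, ip_eq]
  exact Iff.rfl

theorem pd_of (S : Matrix (Fin n) (Fin n) ℝ) (h : PositiveDefinite S) : PD S :=
  ⟨h.1, fun a ha => by rw [bf_eq]; exact h.2 a ha⟩

theorem splits_of {H : Subgroup Γ} {A : (Matrix (Fin n) (Fin n) (MonoidAlgebra ℤ Γ))ˣ}
    {P : (Matrix (Fin n) (Fin n) (MonoidAlgebra ℤ H))ˣ} {g : Fin n → Γ}
    {U : (Matrix (Fin n) (Fin n) ℤ)ˣ}
    (h : A = Units.map (mpm (inc H)) P * (dgu g)⁻¹ * iu Γ U) : SplitsWith H A.val U := by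
  refine ⟨P, fun i => (g i)⁻¹, ?_⟩
  conv_lhs => rw [h]
  rw [Units.val_mul, Units.val_mul]
  have h1 : (iu Γ U : Matrix (Fin n) (Fin n) (MonoidAlgebra ℤ Γ))
      = U.val.map (MonoidAlgebra.single 1) := by
    ext1 i j
    rw [iu_apply]
    rfl
  rw [h1]
  rfl

theorem factor_of {H : Subgroup Γ} {A : (Matrix (Fin n) (Fin n) (MonoidAlgebra ℤ Γ))ˣ}
    {U : (Matrix (Fin n) (Fin n) ℤ)ˣ} (h : SplitsWith H A.val U) :
    ∃ (P : (Matrix (Fin n) (Fin n) (MonoidAlgebra ℤ H))ˣ) (g : Fin n → Γ),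
      A = Units.map (mpm (inc H)) P * dgu g * iu Γ U := by
  obtain ⟨B, g, h1⟩ := h
  refine ⟨B, g, Units.ext ?_⟩
  rw [h1, Units.val_mul, Units.val_mul]
  have h1 : (iu Γ U : Matrix (Fin n) (Fin n) (MonoidAlgebra ℤ Γ))
      = U.val.map (MonoidAlgebra.single 1) := by
    ext1 i j
    rw [iu_apply]
    rfl
  rw [h1]
  rfl

theorem TT_of_zero {A : (Matrix (Fin n) (Fin n) (MonoidAlgebra ℤ Γ))ˣ} (h : ZeroInWh A.val) :
    TT (TU Γ) A := by
  obtain ⟨m, g, ε, C, hC, h1⟩ := h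
  refine ⟨Fin (m + 1), inferInstance, inferInstance, ?_⟩
  let u : (MonoidAlgebra ℤ Γ)ˣ :=
    { val := MonoidAlgebra.single g (ε : ℤ)
      inv := MonoidAlgebra.single g⁻¹ ((ε⁻¹ : ℤˣ) : ℤ)
      val_inv := by
        rw [MonoidAlgebra.single_mul_single, mul_inv_cancel, Units.mul_inv]; rfl
      inv_val := by
        rw [MonoidAlgebra.single_mul_single, inv_mul_cancel, Units.inv_mul]; rfl }
  have hu : u ∈ TU Γ := ⟨g, ε, rfl⟩
  have h2 : Units.map (stm (Fin (m + 1))) A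
      = Units.map (dgm (Sum.inr (0 : Fin (m + 1)))) u * C := by
    apply Units.ext
    rw [Units.val_mul]
    change fromBlocks A.val 0 0 1 = dgm (Sum.inr (0 : Fin (m + 1))) (u : MonoidAlgebra ℤ Γ) * C.val
    rw [h1, dgm_apply]
    congr 2
    funext i
    by_cases h : i = Sum.inr (0 : Fin (m + 1))
    · subst h; simp [u]
    · rw [if_neg h, Function.update_of_ne h]; rfl
  rw [h2]
  exact mul_mem (dgm_mem_HH _ _ u hu) (commutator_le_HH _ hC)

/-- the example -/
noncomputable def ex (g : Γ) : (Matrix (Fin 2) (Fin 2) (MonoidAlgebra ℤ Γ))ˣ where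
  val := !![1, MonoidAlgebra.single g 1; 0, 1]
  inv := !![1, -MonoidAlgebra.single g 1; 0, 1]
  val_inv := by
    rw [Matrix.mul_fin_two, Matrix.one_fin_two]
    simp
  inv_val := by
    rw [Matrix.mul_fin_two, Matrix.one_fin_two]
    simp

theorem p1_nonneg (y : MonoidAlgebra ℝ Γ) : 0 ≤ (y * bar y).coeff 1 := by
  have h1 := ip_self (fun _ : Unit => y)
  unfold ip at h1
  simp only [Finset.univ_unique, Finset.sum_singleton] at h1
  rw [h1]
  exact normSq_nonneg _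

theorem sc_one : sc Γ (1 : Matrix (Fin 2) (Fin 2) ℝ) = 1 := by
  ext1 i j
  simp only [sc, Matrix.map_apply, Matrix.one_apply]
  split_ifs
  · rfl
  · simp

theorem toReal_ex (g : Γ) : toReal (ex g).val = !![1, MonoidAlgebra.single g 1; 0, 1] := by
  ext1 i j
  fin_cases i <;> fin_cases j <;> simp [toReal, ex]

theorem rm_ex (H : Subgroup Γ) (g : Γ) (hg : g ∉ H) :
    rm H (K4H41.GS.gram 1 (ex g).val) = !![1 + 1, 0; 0, 1] := by
  classical
  have e1 : K4H41.GS.gram 1 (ex g).val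
      = !![1 + 1, MonoidAlgebra.single g 1; MonoidAlgebra.single g⁻¹ 1, 1] := by
    unfold K4H41.GS.gram
    rw [sc_one, Matrix.mul_one, toReal_ex]
    have e2 : adj (!![1, MonoidAlgebra.single g 1; 0, 1] : Matrix (Fin 2) (Fin 2) (MonoidAlgebra ℝ Γ))
        = !![1, 0; MonoidAlgebra.single g⁻¹ 1, 1] := by
      ext1 i j
      fin_cases i <;> fin_cases j <;> simp [adj_apply]
    rw [e2, Matrix.mul_fin_two]
    simp [MonoidAlgebra.single_mul_single, ← MonoidAlgebra.one_def]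
  have r1 : res H (1 : MonoidAlgebra ℝ Γ) = 1 := by
    ext k
    rw [coeff_res]
    split_ifs with h
    · rfl
    · rw [MonoidAlgebra.one_def, MonoidAlgebra.coeff_single, Finsupp.single_apply, if_neg]
      rintro rfl
      exact h H.one_mem
  have r2 : ∀ k : Γ, k ∉ H → res H (MonoidAlgebra.single k (1 : ℝ)) = 0 := by
    intro k hk
    ext l
    rw [coeff_res, MonoidAlgebra.coeff_single, Finsupp.single_apply]
    split_ifs with h1 h2
    · rw [← h2] at h1; exact absurd h1 hk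
    · simp
    · simp
  have r3 : res H (1 + 1 : MonoidAlgebra ℝ Γ) = 1 + 1 := by
    ext k
    rw [coeff_res, MonoidAlgebra.coeff_add, Finsupp.add_apply]
    have := congrArg (fun z : MonoidAlgebra ℝ Γ => z.coeff k) r1
    simp only [coeff_res] at this
    split_ifs at this ⊢ with h
    · rfl
    · rw [← this]; simp
  rw [e1]
  ext1 i j
  fin_cases i <;> fin_cases j
  · exact r3
  · exact r2 g hg
  · exact r2 g⁻¹ (fun h => hg (by simpa using H.inv_mem h))
  · exact r1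

theorem dom_ex (H : Subgroup Γ) (g : Γ) (hg : g ∉ H) :
    Dom H (1 - 1 / Real.sqrt 2) (K4H41.GS.gram 1 (ex g).val) := by
  intro x
  rw [rm_ex H g hg, gram_form]
  unfold sf
  rw [sc_one, Matrix.vecMul_one, toReal_ex]
  have e1 : ip (x ᵥ* !![1 + 1, 0; 0, 1]) x
      = 2 * (x 0 * bar (x 0)).coeff 1 + (x 1 * bar (x 1)).coeff 1 := by
    unfold ip
    rw [Fin.sum_univ_two]
    have h0 : (x ᵥ* (!![1 + 1, 0; 0, 1] : Matrix (Fin 2) (Fin 2) (MonoidAlgebra ℝ Γ))) 0
        = x 0 + x 0 := by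
      simp [Matrix.vecMul, dotProduct, Fin.sum_univ_two, mul_add]
    have h1 : (x ᵥ* (!![1 + 1, 0; 0, 1] : Matrix (Fin 2) (Fin 2) (MonoidAlgebra ℝ Γ))) 1
        = x 1 := by
      simp [Matrix.vecMul, dotProduct, Fin.sum_univ_two]
    rw [h0, h1, add_mul]
    simp only [MonoidAlgebra.coeff_add, Finsupp.add_apply]
    ring
  have e2 : ip (x ᵥ* !![1, MonoidAlgebra.single g 1; 0, 1])
        (x ᵥ* !![1, MonoidAlgebra.single g 1; 0, 1])
      = 2 * (x 0 * bar (x 0)).coeff 1 + (x 1 * bar (x 1)).coeff 1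
        + 2 * (x 0 * MonoidAlgebra.single g 1 * bar (x 1)).coeff 1 := by
    unfold ip
    rw [Fin.sum_univ_two]
    have h0 : (x ᵥ* (!![1, MonoidAlgebra.single g 1; 0, 1] :
        Matrix (Fin 2) (Fin 2) (MonoidAlgebra ℝ Γ))) 0 = x 0 := by
      simp [Matrix.vecMul, dotProduct, Fin.sum_univ_two]
    have h1 : (x ᵥ* (!![1, MonoidAlgebra.single g 1; 0, 1] :
        Matrix (Fin 2) (Fin 2) (MonoidAlgebra ℝ Γ))) 1 = x 0 * MonoidAlgebra.single g 1 + x 1 := by
      simp [Matrix.vecMul, dotProduct, Fin.sum_univ_two]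
    have h2 : x 0 * MonoidAlgebra.single g 1 * (MonoidAlgebra.single g⁻¹ 1 * bar (x 0))
        = x 0 * bar (x 0) := by
      rw [mul_assoc, ← mul_assoc (MonoidAlgebra.single g (1 : ℝ)),
        MonoidAlgebra.single_mul_single, mul_inv_cancel, mul_one, ← MonoidAlgebra.one_def, one_mul]
    have h3 : (x 1 * (MonoidAlgebra.single g⁻¹ 1 * bar (x 0))).coeff 1
        = (x 0 * MonoidAlgebra.single g 1 * bar (x 1)).coeff 1 := by
      have h4 : x 1 * (MonoidAlgebra.single g⁻¹ 1 * bar (x 0))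
          = bar (x 0 * MonoidAlgebra.single g 1 * bar (x 1)) := by
        rw [bar_mul, bar_mul, bar_bar, bar_single]
      rw [h4, coeff_bar, inv_one]
    rw [h0, h1, bar_add, bar_mul, bar_single, add_mul, mul_add, mul_add, h2]
    simp only [MonoidAlgebra.coeff_add, Finsupp.add_apply]
    rw [h3]
    ring
  rw [e1, e2]
  set a := (x 0 * bar (x 0)).coeff 1 with ha
  set b := (x 1 * bar (x 1)).coeff 1 with hb
  set p := (x 0 * MonoidAlgebra.single g 1 * bar (x 1)).coeff 1 with hp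
  have h5 := p1_nonneg (Real.sqrt 2 • (x 0 * MonoidAlgebra.single g 1) + x 1)
  have h6 : ((Real.sqrt 2 • (x 0 * MonoidAlgebra.single g 1) + x 1)
      * bar (Real.sqrt 2 • (x 0 * MonoidAlgebra.single g 1) + x 1)).coeff 1
      = 2 * a + b + 2 * Real.sqrt 2 * p := by
    have h2 : x 0 * MonoidAlgebra.single g 1 * (MonoidAlgebra.single g⁻¹ 1 * bar (x 0))
        = x 0 * bar (x 0) := by
      rw [mul_assoc, ← mul_assoc (MonoidAlgebra.single g (1 : ℝ)),
        MonoidAlgebra.single_mul_single, mul_inv_cancel, mul_one, ← MonoidAlgebra.one_def, one_mul]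
    have h3 : (x 1 * (MonoidAlgebra.single g⁻¹ 1 * bar (x 0))).coeff 1 = p := by
      have h4 : x 1 * (MonoidAlgebra.single g⁻¹ 1 * bar (x 0))
          = bar (x 0 * MonoidAlgebra.single g 1 * bar (x 1)) := by
        rw [bar_mul, bar_mul, bar_bar, bar_single]
      rw [h4, coeff_bar, inv_one]
    have hs : Real.sqrt 2 * Real.sqrt 2 = 2 := Real.mul_self_sqrt (by norm_num)
    rw [bar_add, bar_smul, bar_mul, bar_single, add_mul, mul_add, mul_add, smul_mul_assoc,
      mul_smul_comm, smul_mul_assoc, mul_smul_comm, h2]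
    simp only [MonoidAlgebra.coeff_add, Finsupp.add_apply, MonoidAlgebra.coeff_smul,
      Finsupp.smul_apply, smul_eq_mul]
    rw [h3, ← ha, ← hb, ← hp, ← mul_assoc, hs]
    ring
  rw [h6] at h5
  have hs0 : 0 < Real.sqrt 2 := Real.sqrt_pos.2 (by norm_num)
  have hs : Real.sqrt 2 ^ 2 = 2 := Real.sq_sqrt (by norm_num)
  have h7 : 1 / Real.sqrt 2 = Real.sqrt 2 / 2 := by
    rw [div_eq_div_iff hs0.ne' (by norm_num)]
    nlinarith
  rw [h7]
  have h8 : 0 ≤ Real.sqrt 2 * (2 * a + b + 2 * Real.sqrt 2 * p) := mul_nonneg hs0.le h5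
  have h9 : Real.sqrt 2 * (2 * a + b + 2 * Real.sqrt 2 * p)
      = Real.sqrt 2 * (2 * a + b) + 2 * Real.sqrt 2 ^ 2 * p := by ring
  rw [h9, hs] at h8
  have h10 : (1 - Real.sqrt 2 / 2) * (2 * a + b) = (2 * a + b)
      - (Real.sqrt 2 * (2 * a + b)) / 2 := by ring
  rw [h10]
  linarith

theorem not_split_ex (H : Subgroup Γ) (g : Γ) (hg : g ∉ H) (W : (Matrix (Fin 2) (Fin 2) ℤ)ˣ) :
    ¬ SplitsWith H (ex g).val W := by
  classical
  intro h
  obtain ⟨P, k, h1⟩ := factor_of h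
  have h2 : ex g * iu Γ W⁻¹ = Units.map (mpm (inc H)) P * dgu k := by
    have h3 : iu Γ W⁻¹ = (iu Γ W)⁻¹ := by unfold iu; exact map_inv _ _
    rw [h3, h1]
    group
  have hg1 : g ≠ 1 := by
    rintro rfl
    exact hg H.one_mem
  have key : ∀ j, (W⁻¹ : (Matrix (Fin 2) (Fin 2) ℤ)ˣ).val 1 j = 0 := by
    intro j
    by_contra hne
    have e1 : ∀ i l, ((ex g * iu Γ W⁻¹).val i j).coeff l
        = (((Units.map (mpm (inc H)) P).val i j).coeff (l * (k j)⁻¹)) := by
      intro i l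
      rw [h2, Units.val_mul]
      change (((Units.map (mpm (inc H)) P).val
        * Matrix.diagonal (fun i => MonoidAlgebra.single (k i) (1 : ℤ))) i j).coeff l = _
      rw [Matrix.mul_diagonal, MonoidAlgebra.coeff_mul_single_apply, mul_one]
    have e2 : ((ex g * iu Γ W⁻¹).val 1 j) = MonoidAlgebra.single 1 (W⁻¹.val 1 j) := by
      rw [Units.val_mul, Matrix.mul_apply, Fin.sum_univ_two, iu_apply, iu_apply]
      simp [ex]
    have e3 : ((ex g * iu Γ W⁻¹).val 0 j).coeff g = W⁻¹.val 1 j := by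
      rw [Units.val_mul, Matrix.mul_apply, Fin.sum_univ_two, iu_apply, iu_apply]
      simp [ex, MonoidAlgebra.coeff_single, hg1.symm, MonoidAlgebra.single_mul_single]
    have e4 := e1 1 1
    rw [e2] at e4
    have e5 : 1 * (k j)⁻¹ ∈ H := by
      apply supp_inc H P 1 j
      rw [← e4]
      simpa using hne
    have e6 := e1 0 g
    rw [e3] at e6
    have e7 : g * (k j)⁻¹ ∈ H := by
      apply supp_inc H P 0 j
      rw [← e6]
      exact hne
    apply hg
    have e8 := H.mul_mem e7 (H.inv_mem e5)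
    simpa using e8
  have h3 : (W⁻¹ : (Matrix (Fin 2) (Fin 2) ℤ)ˣ).val * W.val = 1 := W.inv_mul
  have h4 := congrFun (congrFun h3 1) 1
  rw [Matrix.mul_apply, Fin.sum_univ_two, key, key] at h4
  simp at h4

end aux

open TH57.Thr TH6.LF TH6.CX K4H41.GS in
/-- Let `Γ` be any group, `H` a subgroup and `A ∈ GLₙ(ℤΓ)`. (1) If the Gram matrix `A A*` dominates
`θ` times its part in `H` for some `θ > 1 - 1/√2`, then `A = B diag(g₁, …, gₙ)` with `B ∈ GLₙ(ℤH)`.
(2) The same up to a right factor in `GLₙ(ℤ)` for `A S A*`, where `S` is a real positive definite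
matrix and `θ ≥ 1`, or `S` is also integral with diagonal entries at most `m` and
`θ > m / (m + 2)`. (3) If `A S A*` is a matrix over `ℝH`, it is `C S C*` for some `C ∈ GLₙ(ℤH)`.
(4) In (1) and (2), `A` is zero in `Wh(Γ)` if `H` is trivial, or `Γ` is torsion-free and `H` cyclic,
or `Wh(H) = 0`. (5) The constant in (1) is sharp for every proper subgroup `H`. -/
theorem result (Γ : Type) [Group Γ] (H : Subgroup Γ) :
    (∀ (n : ℕ) (A : (Matrix (Fin n) (Fin n) (MonoidAlgebra ℤ Γ))ˣ),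
      (∀ θ : ℝ, 1 - 1 / Real.sqrt 2 < θ → Dominates H θ (gramMatrix 1 A.val) →
        SplitsWith H A.val 1) ∧
      (∀ (S : Matrix (Fin n) (Fin n) ℝ) (θ : ℝ), PositiveDefinite S →
        (1 ≤ θ ∨ ∃ m : ℕ, (∀ i j, ∃ z : ℤ, S i j = z) ∧ (∀ i, S i i ≤ m) ∧
          (m : ℝ) / (m + 2) < θ) →
        Dominates H θ (gramMatrix S A.val) → ∃ W, SplitsWith H A.val W) ∧
      (∀ (S : Matrix (Fin n) (Fin n) ℝ) (M : Matrix (Fin n) (Fin n) (MonoidAlgebra ℝ H)),
        PositiveDefinite S →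
        gramMatrix S A.val = M.map (MonoidAlgebra.mapDomain Subtype.val) →
        ∃ C : (Matrix (Fin n) (Fin n) (MonoidAlgebra ℤ H))ˣ, M = gramMatrix S C.val) ∧
      ((∃ W, SplitsWith H A.val W) →
        (H = ⊥ ∨ ((∀ g : Γ, ∀ k : ℕ, 0 < k → g ^ k = 1 → g = 1) ∧ IsCyclic H) ∨
          ∀ B : (Matrix (Fin n) (Fin n) (MonoidAlgebra ℤ H))ˣ, ZeroInWh B.val) →
        ZeroInWh A.val)) ∧
    (∀ g : Γ, g ∉ H → ∃ A : (Matrix (Fin 2) (Fin 2) (MonoidAlgebra ℤ Γ))ˣ,
      A.val = !![1, MonoidAlgebra.single g 1; 0, 1] ∧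
      Dominates H (1 - 1 / Real.sqrt 2) (gramMatrix 1 A.val) ∧ ¬ ∃ W, SplitsWith H A.val W) := by
  classical
  refine ⟨fun n A => ⟨fun θ hθ hD => ?_, fun S θ hS hθ hD => ?_, fun S M hS hM => ?_,
    fun hA hH => ?_⟩, fun g hg => ⟨ex g, rfl, ?_, ?_⟩⟩
  · rw [dom_iff, gram_eq] at hD
    obtain ⟨P, g, h⟩ := sharp_factor H A hθ hD
    apply splits_of (P := P) (g := g) (U := 1)
    have h1 : iu Γ (1 : (Matrix (Fin n) (Fin n) ℤ)ˣ) = 1 := by unfold iu; exact map_one _
    rw [h1, mul_one]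
    exact h
  · rw [dom_iff, gram_eq] at hD
    obtain ⟨U, c, hc⟩ := exists_UC H A (pd_of S hS) (θ := θ) (by
      rcases hθ with hθ | ⟨m, h1, h2, h3⟩
      · exact Or.inl hθ
      · refine Or.inr ⟨m, fun i j => ?_, h2, h3⟩
        obtain ⟨z, hz⟩ := h1 i j
        exact ⟨z, hz.symm⟩) hD
    obtain ⟨P, hP⟩ := factor' H A hc
    exact ⟨U, splits_of hP⟩
  · exact descent H A (pd_of S hS) (by rw [← gram_eq]; exact hM)
  · obtain ⟨W, hW⟩ := hA
    obtain ⟨P, g, h⟩ := factor_of hW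
    have h1 : TT (TU Γ) (Units.map (mpm (inc H)) P) := by
      rcases hH with rfl | ⟨htf, hc⟩ | hH
      · exact TT_bot P
      · exact TT_cyc htf H hc P
      · exact TT_inc H (TT_of_zero (hH P))
    exact TT_frozen n A (TT_factor H (dgu_mem g) h h1)
  · rw [dom_iff, gram_eq]
    exact dom_ex H g hg
  · rintro ⟨W, hW⟩
    exact not_split_ex H g hg W hW

end Pool.Agent.Results.MP_8f66f0_al.GramSubgroup
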