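import Pool.Agent.K4H37.MT.Two

/-!
# Whitehead groups and trinomials in monomial matrices

Every element of the Whitehead group of every group `G` is represented by an invertible trinomial
`1 + α - β`, where `α` is a monomial matrix whose entries are `1` or belong to a given generating set
of `G`, and `β` is a permutation matrix; so three terms in each row and in each column are always
enough. Conversely invertible matrices with at most two terms in each row are trivial.
-/

set_option autoImplicit false

namespace Pool.Agent.Results.MP_8f66f0_al.Trinomials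

open Matrix

/-- `G` has no element of finite order except `1`. -/
def TorsionFree (G : Type) [Group G] : Prop := ∀ g : G, ∀ k : ℕ, 0 < k → g ^ k = 1 → g = 1

/-- The class in the Whitehead group of the invertible matrix `A` over `ℤG` is zero: stabilised by an
identity block, `A` is `± g` on one diagonal entry times a product of commutators of invertible
matrices (the form of the frozen statement). -/
def ZeroInWh {G : Type} [Group G] {κ : Type} [Fintype κ] [DecidableEq κ]
    (A : (Matrix κ κ (MonoidAlgebra ℤ G))ˣ) : Prop :=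
  ∃ (m : ℕ) (g : G) (ε : ℤˣ)
    (C : (Matrix (κ ⊕ Fin (m + 1)) (κ ⊕ Fin (m + 1)) (MonoidAlgebra ℤ G))ˣ),
    C ∈ commutator (Matrix (κ ⊕ Fin (m + 1)) (κ ⊕ Fin (m + 1)) (MonoidAlgebra ℤ G))ˣ ∧
    Matrix.fromBlocks A.val 0 0 (1 : Matrix (Fin (m + 1)) (Fin (m + 1)) (MonoidAlgebra ℤ G)) =
      Matrix.diagonal (fun i : κ ⊕ Fin (m + 1) =>
          if i = Sum.inr (0 : Fin (m + 1)) then
            (MonoidAlgebra.single g ((ε : ℤ)) : MonoidAlgebra ℤ G) else 1) * C.val

/-- The Whitehead group of `G` is zero. -/
def WhZero (G : Type) [Group G] : Prop :=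
  ∀ (n : ℕ) (A : (Matrix (Fin n) (Fin n) (MonoidAlgebra ℤ G))ˣ), ZeroInWh A

/-- The block sum of two invertible matrices. -/
noncomputable def blockSum {G : Type} [Group G] {κ μ : Type} [Fintype κ] [DecidableEq κ] [Fintype μ]
    [DecidableEq μ] (A : (Matrix κ κ (MonoidAlgebra ℤ G))ˣ)
    (B : (Matrix μ μ (MonoidAlgebra ℤ G))ˣ) : (Matrix (κ ⊕ μ) (κ ⊕ μ) (MonoidAlgebra ℤ G))ˣ where
  val := fromBlocks A.val 0 0 B.val
  inv := fromBlocks (A⁻¹).val 0 0 (B⁻¹).val
  val_inv := by
    rw [Matrix.fromBlocks_multiply, ← Matrix.fromBlocks_one]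
    simp
  inv_val := by
    rw [Matrix.fromBlocks_multiply, ← Matrix.fromBlocks_one]
    simp

/-- `A` and `B` have the same class in the Whitehead group: the class of the block sum of `A` and
`B⁻¹` is zero. -/
def SameClass {G : Type} [Group G] {κ μ : Type} [Fintype κ] [DecidableEq κ] [Fintype μ]
    [DecidableEq μ] (A : (Matrix κ κ (MonoidAlgebra ℤ G))ˣ)
    (B : (Matrix μ μ (MonoidAlgebra ℤ G))ˣ) : Prop :=
  ZeroInWh (blockSum A B⁻¹)

/-- The sum of the absolute values of all coefficients of all entries. -/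
def size {G : Type} {κ : Type} [Fintype κ] (M : Matrix κ κ (MonoidAlgebra ℤ G)) : ℕ :=
  ∑ i, ∑ j, ∑ g ∈ (M i j).coeff.support, ((M i j).coeff g).natAbs

/-- The monomial matrix with the entry `c i • d i` in the position `(i, α i)` and zero in all other
positions. -/
noncomputable def monomial {G : Type} [Group G] {N : ℕ} (c : Fin N → ℤ) (d : Fin N → G)
    (α : Equiv.Perm (Fin N)) : Matrix (Fin N) (Fin N) (MonoidAlgebra ℤ G) :=
  Matrix.of fun i j => if α i = j then MonoidAlgebra.single (d i) (c i) else 0

/-- The trinomial `1 + α - β` with the monomial matrix `α` with the entries `d i` and the permutation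
matrix `β`. -/
noncomputable def trinomial {G : Type} [Group G] {N : ℕ} (d : Fin N → G)
    (α β : Equiv.Perm (Fin N)) : Matrix (Fin N) (Fin N) (MonoidAlgebra ℤ G) :=
  1 + monomial (fun _ => 1) d α - monomial (fun _ => 1) (fun _ => 1) β

section bridge

variable {G : Type} [Group G]

theorem zero_bridge {κ : Type} [Fintype κ] [DecidableEq κ]
    (A : (Matrix κ κ (MonoidAlgebra ℤ G))ˣ) :
    ZeroInWh A ↔ Pool.Agent.K4H37.MT.ZeroInWh A := Iff.rfl

theorem same_bridge {κ μ : Type} [Fintype κ] [DecidableEq κ] [Fintype μ] [DecidableEq μ]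
    (A : (Matrix κ κ (MonoidAlgebra ℤ G))ˣ) (B : (Matrix μ μ (MonoidAlgebra ℤ G))ˣ) :
    SameClass A B ↔ Pool.Agent.K4H37.MT.SameClass A B := Iff.rfl

theorem tri_bridge {N : ℕ} (d : Fin N → G) (α β : Equiv.Perm (Fin N)) :
    trinomial d α β = Pool.Agent.K4H37.MT.trinomial d α β := rfl

end bridge

/-- **Whitehead classes are trinomials in monomial matrices.**
1. For every group `G`, every generating set `X` of `G` and every invertible matrix `A` over `ℤG`
   there is an invertible trinomial `1 + α - β` with the class of `A` in the Whitehead group, where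
   `β` is a permutation matrix and `α` is a monomial matrix with entries in `X ∪ {1}`.
2. If all group elements are allowed as entries of `α`, then one finds such a trinomial with at most
   `n + 27 ‖A - 1‖` rows, where `‖ ‖` is the sum of the absolute values of all coefficients.
3. The Whitehead group of `G` is zero if and only if every invertible trinomial `1 + α - β` with
   entries of `α` in `X ∪ {1}` has the class zero.
4. The Whitehead groups of all torsion-free groups are zero if and only if this holds for all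
   invertible trinomials over the group rings of torsion-free groups.
5. Three terms are necessary: every invertible matrix over `ℤG`, for any group `G`, in which each row
   has at most two terms (the sum of the absolute values of all coefficients in each row is at most
   two) has the class zero.
6. In particular a sum of two monomial matrices (with at least one row) is never invertible, whatever
   the signs and the group elements are. -/
theorem result :
    (∀ (G : Type) [Group G] (X : Set G), Subgroup.closure X = ⊤ →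
      ∀ (n : ℕ) (A : (Matrix (Fin n) (Fin n) (MonoidAlgebra ℤ G))ˣ),
        ∃ (N : ℕ) (d : Fin N → G) (α β : Equiv.Perm (Fin N))
          (F : (Matrix (Fin N) (Fin N) (MonoidAlgebra ℤ G))ˣ),
          (∀ i, d i ∈ X ∨ d i = 1) ∧ F.val = trinomial d α β ∧ SameClass A F) ∧
    (∀ (G : Type) [Group G] (n : ℕ) (A : (Matrix (Fin n) (Fin n) (MonoidAlgebra ℤ G))ˣ),
        ∃ (N : ℕ) (d : Fin N → G) (α β : Equiv.Perm (Fin N))
          (F : (Matrix (Fin N) (Fin N) (MonoidAlgebra ℤ G))ˣ),
          N ≤ n + 27 * size (A.val - 1) ∧ F.val = trinomial d α β ∧ SameClass A F) ∧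
    (∀ (G : Type) [Group G] (X : Set G), Subgroup.closure X = ⊤ →
      (WhZero G ↔ ∀ (N : ℕ) (d : Fin N → G) (α β : Equiv.Perm (Fin N))
        (F : (Matrix (Fin N) (Fin N) (MonoidAlgebra ℤ G))ˣ),
        (∀ i, d i ∈ X ∨ d i = 1) → F.val = trinomial d α β → ZeroInWh F)) ∧
    ((∀ (G : Type) [Group G], TorsionFree G → WhZero G) ↔
      ∀ (G : Type) [Group G], TorsionFree G →
        ∀ (N : ℕ) (d : Fin N → G) (α β : Equiv.Perm (Fin N))
          (F : (Matrix (Fin N) (Fin N) (MonoidAlgebra ℤ G))ˣ),
          F.val = trinomial d α β → ZeroInWh F) ∧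
    (∀ (G : Type) [Group G] (n : ℕ) (A : (Matrix (Fin n) (Fin n) (MonoidAlgebra ℤ G))ˣ),
      (∀ i, ∑ j, ∑ g ∈ (A.val i j).coeff.support, ((A.val i j).coeff g).natAbs ≤ 2) →
        ZeroInWh A) ∧
    (∀ (G : Type) [Group G] (N : ℕ), 0 < N → ∀ (c c' : Fin N → ℤˣ) (d d' : Fin N → G)
      (α β : Equiv.Perm (Fin N)),
        ¬ IsUnit (monomial (fun i => (c i : ℤ)) d α + monomial (fun i => (c' i : ℤ)) d' β)) := by
  have h1 : ∀ (G : Type) [Group G] (X : Set G), Subgroup.closure X = ⊤ →
      ∀ (n : ℕ) (A : (Matrix (Fin n) (Fin n) (MonoidAlgebra ℤ G))ˣ),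
        ∃ (N : ℕ) (d : Fin N → G) (α β : Equiv.Perm (Fin N))
          (F : (Matrix (Fin N) (Fin N) (MonoidAlgebra ℤ G))ˣ),
          (∀ i, d i ∈ X ∨ d i = 1) ∧ F.val = trinomial d α β ∧ SameClass A F := by
    intro G _ X hX n A
    obtain ⟨c, hc⟩ := Pool.Agent.K4H37.MT.rep_gen hX A.val
    obtain ⟨N, d, α, β, F, _, h2, h3, h4⟩ := Pool.Agent.K4H37.MT.trinomial_of_rep A hc
    exact ⟨N, d, α, β, F, h2, h3, h4⟩
  have h3 : ∀ (G : Type) [Group G] (X : Set G), Subgroup.closure X = ⊤ →
      (WhZero G ↔ ∀ (N : ℕ) (d : Fin N → G) (α β : Equiv.Perm (Fin N))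
        (F : (Matrix (Fin N) (Fin N) (MonoidAlgebra ℤ G))ˣ),
        (∀ i, d i ∈ X ∨ d i = 1) → F.val = trinomial d α β → ZeroInWh F) := by
    intro G _ X hX
    constructor
    · intro h N d α β F _ _
      exact h N F
    · intro h n A
      obtain ⟨N, d, α, β, F, h2, h3, h4⟩ := h1 G X hX n A
      exact Pool.Agent.K4H37.MT.SameClass.zero h4 (h N d α β F h2 h3)
  refine ⟨h1, ?_, h3, ?_, ?_, ?_⟩
  · intro G _ n A
    obtain ⟨N, d, α, β, F, h2, _, h3, h4⟩ :=
      Pool.Agent.K4H37.MT.trinomial_of_rep A (Pool.Agent.K4H37.MT.rep_univ A.val)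
    exact ⟨N, d, α, β, F, h2, h3, h4⟩
  · constructor
    · intro h G _ hG N d α β F hF
      exact h G hG N F
    · intro h G _ hG
      refine (h3 G Set.univ Subgroup.closure_univ).2 ?_
      intro N d α β F _ hF
      exact h G hG N d α β F hF
  · intro G _ n A hA
    exact Pool.Agent.K4H37.MT.zero_of_TT (Pool.Agent.K4H37.MT.two_rows n (Fin n) (by simp) A hA)
  · intro G _ N hN c c' d d' α β h
    exact Pool.Agent.K4H37.MT.two_terms hN α β d d' c c' h

end Pool.Agent.Results.MP_8f66f0_al.Trinomials
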