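import Pool.Agent.K4H2.TG.Main
import Pool.Agent.K4H2.TG.Virt

/-!
# Whitehead groups of torsion-free groups and of groups with two generators

Every invertible matrix `A` over `ℤG` (`G` torsion-free) is controlled by an invertible matrix `B`
of the same size over `ℤD`, where `D` is a torsion-free group with two generators and with
abelianisation `ℤ²` that is, up to finite index, a subgroup of `G ^ a × ℤ ^ b`: if a power `B ^ k`
has class zero in `Wh(D)` then `A ^ (k N)` has class zero in `Wh(G)`, where `N` is any positive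
number that kills the torsion of the abelianisation of `G`.
-/

set_option autoImplicit false

namespace Pool.Agent.Results.MP_8f66f0_al.TwoGeneratorTest

open Matrix
open Pool.Agent.K4H2.TG (Cyc)

/-- `G` has no element of finite order except `1`. -/
def TorsionFree (G : Type) [Group G] : Prop := ∀ g : G, ∀ k : ℕ, 0 < k → g ^ k = 1 → g = 1

/-- The class in the Whitehead group of the invertible matrix `A` over `ℤG` is zero: stabilised by an
identity block, `A` is `± g` on one diagonal entry times a product of commutators of invertible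
matrices (the form of the frozen statement). -/
def ZeroInWh {G : Type} [Group G] {n : ℕ}
    (A : (Matrix (Fin n) (Fin n) (MonoidAlgebra ℤ G))ˣ) : Prop :=
  ∃ (m : ℕ) (g : G) (ε : ℤˣ)
    (C : (Matrix (Fin n ⊕ Fin (m + 1)) (Fin n ⊕ Fin (m + 1)) (MonoidAlgebra ℤ G))ˣ),
    C ∈ commutator (Matrix (Fin n ⊕ Fin (m + 1)) (Fin n ⊕ Fin (m + 1)) (MonoidAlgebra ℤ G))ˣ ∧
    Matrix.fromBlocks A.val 0 0 (1 : Matrix (Fin (m + 1)) (Fin (m + 1)) (MonoidAlgebra ℤ G)) =
      Matrix.diagonal (fun i : Fin n ⊕ Fin (m + 1) =>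
          if i = Sum.inr (0 : Fin (m + 1)) then
            (MonoidAlgebra.single g ((ε : ℤ)) : MonoidAlgebra ℤ G) else 1) * C.val

/-- The Whitehead group of `G` is zero. -/
def WhZero (G : Type) [Group G] : Prop :=
  ∀ (n : ℕ) (A : (Matrix (Fin n) (Fin n) (MonoidAlgebra ℤ G))ˣ), ZeroInWh A

/-- Every element of the Whitehead group of `G` has finite order. -/
def WhTorsion (G : Type) [Group G] : Prop :=
  ∀ (n : ℕ) (A : (Matrix (Fin n) (Fin n) (MonoidAlgebra ℤ G))ˣ), ∃ k : ℕ, 0 < k ∧ ZeroInWh (A ^ k)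

/-- The elements of finite order of the abelianisation of `G` are killed by `N`. -/
def TorsionKilledBy (N : ℕ) (G : Type) [Group G] : Prop :=
  ∀ g : G, ∀ k : ℕ, 0 < k → g ^ k ∈ commutator G → g ^ N ∈ commutator G

/-- `D` is torsion-free with two generators and with abelianisation `ℤ²`. -/
def TwoGen (D : Type) [Group D] : Prop :=
  TorsionFree D ∧ (∃ a b : D, Subgroup.closure {a, b} = ⊤) ∧
    Nonempty (Abelianization D ≃* Multiplicative (ℤ × ℤ))

/-- `D` embeds in an iterated cyclic wreath product `(G ^ m ⋊ ℤ) ^ M ⋊ ℤ`, and a subgroup of finite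
index of `D` embeds in `G ^ a × ℤ ^ b` for some `a` and `b`. -/
def Near (D G : Type) [Group D] [Group G] : Prop :=
  (∃ (M m : ℕ) (f : D →* Cyc M (Cyc m G)), 0 < M ∧ 0 < m ∧ Function.Injective f) ∧
    ∃ (D0 : Subgroup D) (a b : ℕ) (f : D0 →* (Fin a → G) × Multiplicative (Fin b → ℤ)),
      D0.FiniteIndex ∧ Function.Injective f

/-- `A ^ (k N)` has class zero if `B ^ k` has class zero, for every `k`. -/
def Controls {G D : Type} [Group G] [Group D] {n : ℕ}
    (B : (Matrix (Fin n) (Fin n) (MonoidAlgebra ℤ D))ˣ)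
    (A : (Matrix (Fin n) (Fin n) (MonoidAlgebra ℤ G))ˣ) (N : ℕ) : Prop :=
  ∀ k : ℕ, ZeroInWh (B ^ k) → ZeroInWh (A ^ (k * N))

open Pool.Agent.K4H2.TG in
theorem controls_of {G D : Type} [Group G] [Group D] {n N : ℕ}
    {B : (Matrix (Fin n) (Fin n) (MonoidAlgebra ℤ D))ˣ}
    {A : (Matrix (Fin n) (Fin n) (MonoidAlgebra ℤ G))ˣ}
    (h : ∀ k : ℕ, TH57.Thr.TT (TH57.Thr.TU D) (B ^ k) → TH57.Thr.TT (TH57.Thr.TU G) (A ^ (k * N))) :
    Controls B A N := fun k hk =>
  Pool.Agent.K4H37.MT.zero_of_TT (h k (Pool.Agent.K4H37.MT.TT_of_zero hk))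

open Pool.Agent.K4H2.TG in
theorem near_of_start {G : Type} [Group G] (hG : TorsionFree G) {n : ℕ}
    (A : (Matrix (Fin n) (Fin n) (MonoidAlgebra ℤ G))ˣ) (N : ℕ) (hN : 0 < N) (h : Start A N) :
    ∃ (D : Type) (_ : Group D) (B : (Matrix (Fin n) (Fin n) (MonoidAlgebra ℤ D))ˣ),
      TwoGen D ∧ Near D G ∧ Controls B A N := by
  obtain ⟨E, m, hm, hE, hreal⟩ := h.sub hN
  have hEtf : TorsionFree E := by
    intro g k hk hgk
    apply Subtype.ext
    exact hG _ k hk (congrArg Subtype.val hgk)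
  obtain ⟨D, iD, M, hM, h1, h2, h3, ⟨f, hf⟩, h5⟩ := one_factor hEtf m hm
  obtain ⟨B, hB⟩ := h5 A hreal
  have : NeZero M := ⟨by omega⟩
  have : NeZero m := ⟨by omega⟩
  let f' : D →* Cyc M (Cyc m G) := (Cyc.map (Cyc.map E.subtype)).comp f
  have hf' : Function.Injective f' :=
    (Cyc.map_injective _ (Cyc.map_injective _ E.subtype_injective)).comp hf
  exact ⟨D, iD, B, ⟨h1, h2, h3⟩, ⟨⟨M, m, f', hM, hm, hf'⟩, virt f' hf'⟩, controls_of hB⟩

theorem killed_one {D : Type} [Group D] (h : TwoGen D) : TorsionKilledBy 1 D := by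
  obtain ⟨_, _, ⟨e⟩⟩ := h
  intro g k hk hgk
  rw [pow_one]
  have h1 : (Abelianization.of g : Abelianization D) ^ k = 1 := by
    rw [← map_pow]
    exact (QuotientGroup.eq_one_iff _).2 hgk
  have h2 : e (Abelianization.of g) ^ k = 1 := by rw [← map_pow, h1, map_one]
  have h3 : k • Multiplicative.toAdd (e (Abelianization.of g)) = 0 := by
    rw [← toAdd_pow, h2, toAdd_one]
  have h4 : Multiplicative.toAdd (e (Abelianization.of g)) = 0 := by
    rcases smul_eq_zero.1 h3 with h5 | h5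
    · omega
    · exact h5
  have h5 : e (Abelianization.of g) = 1 := Multiplicative.toAdd.injective h4
  have h6 : (Abelianization.of g : Abelianization D) = 1 := by
    apply e.injective
    rw [h5, map_one]
  exact (QuotientGroup.eq_one_iff _).1 h6

/-- **Whitehead groups of torsion-free groups are controlled by groups with two generators.** -/
theorem result :
    (∀ (G : Type) [Group G], TorsionFree G → ∀ (n : ℕ)
      (A : (Matrix (Fin n) (Fin n) (MonoidAlgebra ℤ G))ˣ),
      (∀ N : ℕ, 0 < N → TorsionKilledBy N G →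
        ∃ (D : Type) (_ : Group D) (B : (Matrix (Fin n) (Fin n) (MonoidAlgebra ℤ D))ˣ),
          TwoGen D ∧ Near D G ∧ Controls B A N) ∧
      ∃ (N : ℕ) (D : Type) (_ : Group D) (B : (Matrix (Fin n) (Fin n) (MonoidAlgebra ℤ D))ˣ),
        0 < N ∧ TwoGen D ∧ Near D G ∧ Controls B A N) ∧
    (∀ Q : (G : Type) → [Group G] → Prop,
      (∀ (G H : Type) [Group G] [Group H] (f : H →* G), Function.Injective f → Q G → Q H) →
      (∀ (G : Type) [Group G] (m : ℕ), 0 < m → Q G → Q (Cyc m G)) →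
      ((∀ (G : Type) [Group G], TorsionFree G → Q G → TorsionKilledBy 1 G → WhZero G) ↔
        ∀ (D : Type) [Group D], TwoGen D → Q D → WhZero D) ∧
      ((∀ (G : Type) [Group G], TorsionFree G → Q G → WhTorsion G) ↔
        ∀ (D : Type) [Group D], TwoGen D → Q D → WhTorsion D)) ∧
    ∃ (T : Type) (_ : Group T), TwoGen T ∧
      (∀ (G : Type) [Group G], TorsionFree G → ∀ (n : ℕ)
        (A : (Matrix (Fin n) (Fin n) (MonoidAlgebra ℤ G))ˣ),
        (∀ N : ℕ, 0 < N → TorsionKilledBy N G →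
          ∃ B : (Matrix (Fin n) (Fin n) (MonoidAlgebra ℤ T))ˣ, Controls B A N) ∧
        ∃ (N : ℕ) (B : (Matrix (Fin n) (Fin n) (MonoidAlgebra ℤ T))ˣ), 0 < N ∧ Controls B A N) ∧
      (WhZero T ↔ ∀ (G : Type) [Group G], TorsionFree G → TorsionKilledBy 1 G → WhZero G) ∧
      (WhTorsion T ↔ ∀ (G : Type) [Group G], TorsionFree G → WhTorsion G) := by
  have part1 : ∀ (G : Type) [Group G], TorsionFree G → ∀ (n : ℕ)
      (A : (Matrix (Fin n) (Fin n) (MonoidAlgebra ℤ G))ˣ),
      (∀ N : ℕ, 0 < N → TorsionKilledBy N G →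
        ∃ (D : Type) (_ : Group D) (B : (Matrix (Fin n) (Fin n) (MonoidAlgebra ℤ D))ˣ),
          TwoGen D ∧ Near D G ∧ Controls B A N) ∧
      ∃ (N : ℕ) (D : Type) (_ : Group D) (B : (Matrix (Fin n) (Fin n) (MonoidAlgebra ℤ D))ˣ),
        0 < N ∧ TwoGen D ∧ Near D G ∧ Controls B A N := by
    intro G _ hG n A
    obtain ⟨h1, N, hN, h2⟩ := Pool.Agent.K4H2.TG.start hG A
    refine ⟨fun N hN hk => near_of_start hG A N hN (h1 N hk), N, ?_⟩
    obtain ⟨D, iD, B, h3, h4, h5⟩ := near_of_start hG A N hN h2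
    exact ⟨D, iD, B, hN, h3, h4, h5⟩
  refine ⟨part1, ?_, ?_⟩
  · intro Q hsub hcyc
    have hQ : ∀ (D G : Type) [Group D] [Group G], Near D G → Q G → Q D := by
      intro D G _ _ hD hG
      obtain ⟨⟨M, m, f, hM, hm, hf⟩, _⟩ := hD
      exact hsub _ _ f hf (hcyc _ M hM (hcyc _ m hm hG))
    constructor
    · constructor
      · intro h D _ hD hQD
        exact h D hD.1 hQD (killed_one hD)
      · intro h G _ hG hQG hk n A
        obtain ⟨D, iD, B, h1, h2, h3⟩ := (part1 G hG n A).1 1 one_pos hk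
        have h4 := h3 1 (by rw [pow_one]; exact h D h1 (hQ D G h2 hQG) n B)
        rwa [mul_one, pow_one] at h4
    · constructor
      · intro h D _ hD hQD
        exact h D hD.1 hQD
      · intro h G _ hG hQG n A
        obtain ⟨N, D, iD, B, hN, h1, h2, h3⟩ := (part1 G hG n A).2
        obtain ⟨k, hk, h4⟩ := h D h1 (hQ D G h2 hQG) n B
        exact ⟨k * N, Nat.mul_pos hk hN, h3 k h4⟩
  · obtain ⟨T, iT, h1, h2, h3, h4⟩ := Pool.Agent.K4H2.TG.universal
    have hT : TwoGen T := ⟨h1, h2, h3⟩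
    have part3 : ∀ (G : Type) [Group G], TorsionFree G → ∀ (n : ℕ)
        (A : (Matrix (Fin n) (Fin n) (MonoidAlgebra ℤ G))ˣ),
        (∀ N : ℕ, 0 < N → TorsionKilledBy N G →
          ∃ B : (Matrix (Fin n) (Fin n) (MonoidAlgebra ℤ T))ˣ, Controls B A N) ∧
        ∃ (N : ℕ) (B : (Matrix (Fin n) (Fin n) (MonoidAlgebra ℤ T))ˣ), 0 < N ∧ Controls B A N := by
      intro G _ hG n A
      obtain ⟨h5, N, hN, h6⟩ := Pool.Agent.K4H2.TG.start hG A
      constructor
      · intro N hN hk
        obtain ⟨σ, m, h7⟩ := (h5 N hk).fac hG hN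
        obtain ⟨B, hB⟩ := h4 A σ m h7
        exact ⟨B, controls_of hB⟩
      · obtain ⟨σ, m, h7⟩ := h6.fac hG hN
        obtain ⟨B, hB⟩ := h4 A σ m h7
        exact ⟨N, B, hN, controls_of hB⟩
    refine ⟨T, iT, hT, part3, ?_, ?_⟩
    · constructor
      · intro h G _ hG hk n A
        obtain ⟨B, hB⟩ := (part3 G hG n A).1 1 one_pos hk
        have h5 := hB 1 (h n _)
        rwa [mul_one, pow_one] at h5
      · intro h
        exact h T h1 (killed_one hT)
    · constructor
      · intro h G _ hG n A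
        obtain ⟨N, B, hN, hB⟩ := (part3 G hG n A).2
        obtain ⟨k, hk, h5⟩ := h n B
        exact ⟨k * N, Nat.mul_pos hk hN, hB k h5⟩
      · intro h
        exact h T h1

end Pool.Agent.Results.MP_8f66f0_al.TwoGeneratorTest
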