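import Pool.Agent.K4H37.UG.Main

/-!
# A compactness theorem for Whitehead groups of torsion-free groups

The vanishing of the Whitehead groups of all torsion-free groups is equivalent to the vanishing for
one explicit countable torsion-free group, to a uniform version with bounds which depend on the size
of the matrices only, and to a statement on arbitrary groups: all Whitehead torsion is killed by
killing finitely many elements of finite order, one after the other.
-/

set_option autoImplicit false

namespace Pool.Agent.Results.MP_8f66f0_al.UniversalGroup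

open Matrix
open scoped commutatorElement

/-- `G` has no element of finite order except `1`. -/
def TorsionFree (G : Type) [Group G] : Prop := ∀ g : G, ∀ k : ℕ, 0 < k → g ^ k = 1 → g = 1

/-- The class in the Whitehead group of the invertible matrix `A` over `ℤG` is zero: stabilised by an
identity block, `A` is `± g` on one diagonal entry times a product of commutators of invertible
matrices (the form of the frozen statement). -/
def ZeroInWh {G : Type} [Group G] {n : ℕ}
    (A : (Matrix (Fin n) (Fin n) (MonoidAlgebra ℤ G))ˣ) : Prop :=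
  ∃ (m : ℕ) (g : G) (ε : ℤˣ)
    (C : (Matrix (Fin n ⊕ Fin (m + 1)) (Fin n ⊕ Fin (m + 1)) (MonoidAlgebra ℤ G))ˣ),
    C ∈ commutator (Matrix (Fin n ⊕ Fin (m + 1)) (Fin n ⊕ Fin (m + 1)) (MonoidAlgebra ℤ G))ˣ ∧
    Matrix.fromBlocks A.val 0 0 (1 : Matrix (Fin (m + 1)) (Fin (m + 1)) (MonoidAlgebra ℤ G)) =
      Matrix.diagonal (fun i : Fin n ⊕ Fin (m + 1) =>
          if i = Sum.inr (0 : Fin (m + 1)) then
            (MonoidAlgebra.single g ((ε : ℤ)) : MonoidAlgebra ℤ G) else 1) * C.val

/-- The Whitehead group of `G` is zero. -/
def WhZero (G : Type) [Group G] : Prop :=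
  ∀ (n : ℕ) (A : (Matrix (Fin n) (Fin n) (MonoidAlgebra ℤ G))ˣ), ZeroInWh A

/-- The size of a matrix over `ℤG`: the sum of the absolute values of all coefficients of all
entries. -/
def size {G : Type} {κ : Type} [Fintype κ] (M : Matrix κ κ (MonoidAlgebra ℤ G)) : ℕ :=
  ∑ i, ∑ j, ∑ g ∈ (M i j).coeff.support, ((M i j).coeff g).natAbs

/-- A certificate of size `N` for the vanishing of the class of `A` in the Whitehead group: for some
`m ≤ N`, the matrix `A` stabilised by `m + 1` rows and columns is `± g` on one diagonal entry times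
the product of at most `N` commutators `[X, Y]` of invertible matrices, where the sizes of `X`,
`X⁻¹`, `Y` and `Y⁻¹` are at most `N`. -/
def Certificate {G : Type} [Group G] {n : ℕ} (N : ℕ)
    (A : (Matrix (Fin n) (Fin n) (MonoidAlgebra ℤ G))ˣ) : Prop :=
  ∃ (m : ℕ) (g : G) (ε : ℤˣ)
    (L : List ((Matrix (Fin n ⊕ Fin (m + 1)) (Fin n ⊕ Fin (m + 1)) (MonoidAlgebra ℤ G))ˣ ×
      (Matrix (Fin n ⊕ Fin (m + 1)) (Fin n ⊕ Fin (m + 1)) (MonoidAlgebra ℤ G))ˣ)),
    m ≤ N ∧ L.length ≤ N ∧
    (∀ p ∈ L, size p.1.val ≤ N ∧ size (p.1⁻¹).val ≤ N ∧ size p.2.val ≤ N ∧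
      size (p.2⁻¹).val ≤ N) ∧
    Matrix.fromBlocks A.val 0 0 (1 : Matrix (Fin (m + 1)) (Fin (m + 1)) (MonoidAlgebra ℤ G)) =
      Matrix.diagonal (fun i : Fin n ⊕ Fin (m + 1) =>
          if i = Sum.inr (0 : Fin (m + 1)) then
            (MonoidAlgebra.single g ((ε : ℤ)) : MonoidAlgebra ℤ G) else 1) *
        ((L.map fun p : (Matrix (Fin n ⊕ Fin (m + 1)) (Fin n ⊕ Fin (m + 1))
          (MonoidAlgebra ℤ G))ˣ × (Matrix (Fin n ⊕ Fin (m + 1)) (Fin n ⊕ Fin (m + 1))
          (MonoidAlgebra ℤ G))ˣ => ⁅p.1, p.2⁆).prod).val

/-- The invertible matrix over `ℤH` obtained from `A` over `ℤG` by a homomorphism `G → H`. -/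
noncomputable def push {G H : Type} [Group G] [Group H] (φ : G →* H) {n : ℕ}
    (A : (Matrix (Fin n) (Fin n) (MonoidAlgebra ℤ G))ˣ) :
    (Matrix (Fin n) (Fin n) (MonoidAlgebra ℤ H))ˣ :=
  Units.map (RingHom.toMonoidHom (MonoidAlgebra.mapDomainRingHom ℤ φ).mapMatrix) A

/-- Every member of the list has finite order modulo the normal closure of the later members: the
members of the list, starting with the last one, can be killed one after the other such that each
has finite order when it is killed. -/
inductive FiniteOrders {G : Type} [Group G] : List G → Prop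
  | nil : FiniteOrders []
  | cons (g : G) (l : List G) (m : ℕ) : FiniteOrders l → 0 < m →
      g ^ m ∈ Subgroup.normalClosure {x | x ∈ l} → FiniteOrders (g :: l)

/-- The class of `A` is killed by finitely many elements of finite order: there is a list of elements
of `G`, each of finite order modulo the normal closure of the later ones, such that the class of the
image of `A` in the Whitehead group of the quotient of `G` by the normal closure of the list is
zero. -/
def KilledByTorsion {G : Type} [Group G] {n : ℕ}
    (A : (Matrix (Fin n) (Fin n) (MonoidAlgebra ℤ G))ˣ) : Prop :=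
  ∃ l : List G, FiniteOrders l ∧
    ZeroInWh (push (QuotientGroup.mk' (Subgroup.normalClosure {x | x ∈ l})) A)

/-- `q : G → Q` is the largest torsion-free quotient of `G`: it is surjective, `Q` is torsion-free,
and all homomorphisms from `G` to torsion-free groups factor through it. -/
def IsLargestTorsionFreeQuotient {G Q : Type} [Group G] [Group Q] (q : G →* Q) : Prop :=
  Function.Surjective q ∧ TorsionFree Q ∧
    ∀ (Γ : Type) [Group Γ], TorsionFree Γ → ∀ φ : G →* Γ, q.ker ≤ φ.ker

/-- `U` is the restricted direct product of the largest torsion-free quotients of the groups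
`⟨Fin r | R⟩`, for all finite sets `R` of words: there are the largest torsion-free quotients `q σ`
of these groups, indexed by the pairs `σ = (r, R)`, and an isomorphism of `U` with the group of the
families of elements which are `1` for all but finitely many `σ`. -/
def IsUniversalProduct (U : Type) [Group U] : Prop :=
  ∃ (Q : (Σ r : ℕ, Finset (FreeGroup (Fin r))) → Type) (_ : ∀ σ, Group (Q σ))
    (q : ∀ σ : (Σ r : ℕ, Finset (FreeGroup (Fin r))),
      PresentedGroup (σ.2 : Set (FreeGroup (Fin σ.1))) →* Q σ) (i : U →* ∀ σ, Q σ),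
    (∀ σ, IsLargestTorsionFreeQuotient (q σ)) ∧ Function.Injective i ∧
      Set.range i = {f | {σ | f σ ≠ 1}.Finite}

section bridge

open Pool.Agent.K4H37.UG

variable {G : Type} [Group G] {n : ℕ}

theorem zero_bridge (A : (Matrix (Fin n) (Fin n) (MonoidAlgebra ℤ G))ˣ) :
    ZeroInWh A ↔ Pool.Agent.K4H37.UG.ZeroInWh A := Iff.rfl

theorem cert_bridge (N : ℕ) (A : (Matrix (Fin n) (Fin n) (MonoidAlgebra ℤ G))ˣ) :
    Certificate N A ↔ Cert N A := Iff.rfl

theorem fo_bridge (l : List G) : FiniteOrders l ↔ Kills l := by
  constructor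
  · intro h
    induction h with
    | nil => exact Kills.nil
    | cons g l m _ hm hg ih => exact Kills.cons g l m ih hm hg
  · intro h
    induction h with
    | nil => exact FiniteOrders.nil
    | cons g l m _ hm hg ih => exact FiniteOrders.cons g l m ih hm hg

theorem killed_iff (A : (Matrix (Fin n) (Fin n) (MonoidAlgebra ℤ G))ˣ) :
    KilledByTorsion A ↔ ZeroInWh (push (QuotientGroup.mk' (torK G)) A) := by
  constructor
  · rintro ⟨l, hl, h⟩
    have hl' := (fo_bridge l).1 hl
    let ψ : G ⧸ ncl l →* TF G := QuotientGroup.map (ncl l) (torK G) (MonoidHom.id G) (by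
      intro x hx
      exact ncl_le hl' hx)
    have h1 := Pool.Agent.K4H37.UG.ZeroInWh.map (A := umap (QuotientGroup.mk' (ncl l)) (Fin n) A)
      h ψ
    rw [umap_comp] at h1
    exact h1
  · intro h
    obtain ⟨l, hl, h1⟩ := kill_of_tf A h
    exact ⟨l, (fo_bridge l).2 hl, h1⟩

theorem largest (G : Type) [Group G] :
    IsLargestTorsionFreeQuotient (QuotientGroup.mk' (torK G)) := by
  refine ⟨QuotientGroup.mk'_surjective _, tf_torsionFree, ?_⟩
  intro Γ _ hΓ φ x hx
  rw [QuotientGroup.ker_mk'] at hx
  obtain ⟨l, hl, hx⟩ := hx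
  exact kills_map hΓ φ hl hx

end bridge

/-- There is a countable torsion-free group `U`, the restricted direct product of the largest
torsion-free quotients of the finitely presented groups, such that the following are equivalent:

(1) the Whitehead groups of all torsion-free groups are zero;

(2) the Whitehead group of `U` is zero;

(3) for every `s` there is `N` such that for every torsion-free group `Γ` and every invertible
`n × n` matrix `A` over `ℤΓ` with `n ≤ s`, such that the sizes of `A` and `A⁻¹` are at most `s`, the
vanishing of the class of `A` has a certificate of size `N`;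

(4) for every group `G`, every element of the Whitehead group of `G` is killed by finitely many
elements of finite order.

Moreover, for every group `G` with largest torsion-free quotient `q : G → Q` and every invertible
matrix `A` over `ℤG`: the class of `A` is killed by finitely many elements of finite order if and
only if its image in the Whitehead group of `Q` is zero. -/
theorem result :
    (∃ (U : Type) (_ : Group U), Countable U ∧ TorsionFree U ∧ IsUniversalProduct U ∧
      [∀ (Γ : Type) [Group Γ], TorsionFree Γ → WhZero Γ,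
        WhZero U,
        ∀ s : ℕ, ∃ N : ℕ, ∀ (Γ : Type) [Group Γ], TorsionFree Γ → ∀ n : ℕ, n ≤ s →
          ∀ A : (Matrix (Fin n) (Fin n) (MonoidAlgebra ℤ Γ))ˣ, size A.val ≤ s →
            size (A⁻¹).val ≤ s → Certificate N A,
        ∀ (G : Type) [Group G] (n : ℕ) (A : (Matrix (Fin n) (Fin n) (MonoidAlgebra ℤ G))ˣ),
          KilledByTorsion A].TFAE) ∧
    ∀ (G Q : Type) [Group G] [Group Q] (q : G →* Q), IsLargestTorsionFreeQuotient q →
      ∀ (n : ℕ) (A : (Matrix (Fin n) (Fin n) (MonoidAlgebra ℤ G))ˣ),
        KilledByTorsion A ↔ ZeroInWh (push q A) := by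
  open Pool.Agent.K4H37.UG in
  refine ⟨⟨Univ, inferInstance, univ_countable, univ_torsionFree, ?_, ?_⟩, ?_⟩
  · refine ⟨Fac, inferInstance, fun σ => QuotientGroup.mk' _, Univ.subtype,
      fun σ => largest _, Univ.subtype_injective, ?_⟩
    rw [← MonoidHom.coe_range, Subgroup.range_subtype]
    rfl
  · tfae_have 1 → 2 := fun h => h Univ univ_torsionFree
    tfae_have 2 → 1 := fun h Γ _ hΓ => main_univ h hΓ
    tfae_have 1 → 3 := fun h s => main_bound h s
    tfae_have 3 → 1 := by
      intro h Γ _ hΓ n A
      obtain ⟨N, hN⟩ := h (n + size A.val + size (A⁻¹).val)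
      exact (zero_iff A).2 ⟨N, hN Γ hΓ n (by omega) A (by omega) (by omega)⟩
    tfae_have 1 → 4 := by
      intro h G _ n A
      exact (killed_iff A).2 (h _ tf_torsionFree n _)
    tfae_have 4 → 1 := by
      intro h Γ _ hΓ n A
      obtain ⟨l, hl, h1⟩ := h Γ n A
      have h2 := kills_map hΓ (MonoidHom.id Γ) ((fo_bridge l).1 hl)
      let ψ : Γ ⧸ ncl l →* Γ := QuotientGroup.lift (ncl l) (MonoidHom.id Γ) h2
      have h3 := Pool.Agent.K4H37.UG.ZeroInWh.map
        (A := umap (QuotientGroup.mk' (ncl l)) (Fin n) A) h1 ψ
      rw [umap_comp] at h3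
      have h4 : ψ.comp (QuotientGroup.mk' (ncl l)) = MonoidHom.id Γ := by
        ext x
        rfl
      rw [h4, umap_id] at h3
      exact h3
    tfae_finish
  · intro G Q _ _ q hq n A
    rw [killed_iff]
    obtain ⟨hs, htf, huniv⟩ := hq
    have hl := largest G
    constructor
    · intro h
      let ψ : TF G →* Q := liftTF htf q
      have h3 := Pool.Agent.K4H37.UG.ZeroInWh.map
        (A := umap (QuotientGroup.mk' (torK G)) (Fin n) A) h ψ
      rw [umap_comp, liftTF_comp] at h3
      exact h3
    · intro h
      have hk : q.ker ≤ (QuotientGroup.mk' (torK G)).ker :=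
        huniv (TF G) tf_torsionFree (QuotientGroup.mk' (torK G))
      let ψ : Q →* TF G := (QuotientGroup.lift q.ker (QuotientGroup.mk' (torK G)) hk).comp
        (QuotientGroup.quotientKerEquivOfSurjective q hs).symm.toMonoidHom
      have h3 := Pool.Agent.K4H37.UG.ZeroInWh.map (A := umap q (Fin n) A) h ψ
      rw [umap_comp] at h3
      have h4 : ψ.comp q = QuotientGroup.mk' (torK G) := by
        ext x
        have h5 : (QuotientGroup.quotientKerEquivOfSurjective q hs).symm (q x) =
            QuotientGroup.mk' q.ker x := by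
          rw [MulEquiv.symm_apply_eq]
          rfl
        change QuotientGroup.lift q.ker (QuotientGroup.mk' (torK G)) hk
          ((QuotientGroup.quotientKerEquivOfSurjective q hs).symm (q x)) = _
        rw [h5]
        rfl
      rw [h4] at h3
      exact h3

end Pool.Agent.Results.MP_8f66f0_al.UniversalGroup
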